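import Pool.Agent.H.MP_a2ec29_lc.Main

set_option autoImplicit false

open Set

namespace Pool.Agent.H.MP_a2ec29_lc

open Nat.Partrec (Code)

def HH (c s : ℕ) : Bool := (Code.evaln s (Denumerable.ofNat Code c) 0).isSome

theorem HH_prim : Primrec₂ HH :=
  (Primrec.option_isSome.comp (Code.primrec_evaln.comp
    ((Primrec.snd.pair ((Primrec.ofNat Code).comp Primrec.fst)).pair (Primrec.const 0)))).to₂

theorem HH_mono {c s t : ℕ} (h : s ≤ t) (hs : HH c s = true) : HH c t = true := by
  unfold HH at hs ⊢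
  rw [Option.isSome_iff_exists] at hs ⊢
  obtain ⟨x, hx⟩ := hs
  exact ⟨x, Code.evaln_mono h hx⟩

theorem HH_undec : ¬ ComputablePred (fun c => ∃ s, HH c s = true) := by
  intro h
  apply ComputablePred.halting_problem 0
  obtain ⟨f, hf, h⟩ := ComputablePred.computable_iff.1 h
  refine ComputablePred.computable_iff.2 ⟨fun c => f (Encodable.encode c),
    hf.comp Computable.encode, ?_⟩
  funext c
  have := congrFun h (Encodable.encode c)
  simp only [HH, Denumerable.ofNat_encode] at this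
  rw [← this]
  apply propext
  rw [Part.dom_iff_mem]
  simp only [Code.evaln_complete, Option.isSome_iff_exists]
  exact exists_comm

def mm (s : ℕ) : ℕ := (List.range s).findIdx (fun c => HH c (s + 1) && !HH c s)

theorem mm_prim : Primrec mm :=
  Primrec.list_findIdx Primrec.list_range (Primrec.and.comp
    (HH_prim.comp Primrec.snd (Primrec.succ.comp Primrec.fst))
    (Primrec.not.comp (HH_prim.comp Primrec.snd Primrec.fst))).to₂

theorem mm_le (s : ℕ) : mm s ≤ s := by
  have := List.findIdx_le_length (p := fun c => HH c (s + 1) && !HH c s) (xs := List.range s)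
  simpa [mm] using this

theorem mm_le_of {c s : ℕ} (hc : c < s) (h1 : HH c (s + 1) = true) (h2 : HH c s = false) :
    mm s ≤ c := by
  by_contra h
  have := List.not_of_lt_findIdx (not_le.1 h)
  simp [h1, h2] at this

theorem mm_spec {s : ℕ} (h : mm s < s) : HH (mm s) (s + 1) = true ∧ HH (mm s) s = false := by
  have h' : (List.range s).findIdx (fun c => HH c (s + 1) && !HH c s) < (List.range s).length := by
    simpa [mm] using h
  have := List.findIdx_getElem (w := h')
  simpa [mm] using this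

theorem mm_fin (c : ℕ) : {s | mm s ≤ c}.Finite := by
  have h1 : ∀ d, {s | HH d (s + 1) = true ∧ HH d s = false}.Finite := by
    intro d
    apply Set.Subsingleton.finite
    intro s hs t ht
    by_contra hne
    rcases Nat.lt_or_gt_of_ne hne with h | h
    · have := HH_mono (Nat.succ_le_of_lt h) hs.1
      rw [ht.2] at this; exact Bool.false_ne_true this
    · have := HH_mono (Nat.succ_le_of_lt h) ht.1
      rw [hs.2] at this; exact Bool.false_ne_true this
  refine ((finite_Iic c).union ((finite_Iic c).biUnion (fun d _ => h1 d))).subset ?_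
  intro s hs
  rcases (mm_le s).lt_or_eq with h | h
  · exact Or.inr (mem_biUnion (x := mm s) hs (mm_spec h))
  · exact Or.inl (by simp only [mem_ofPred_eq] at hs; simp; omega)

def TT (s : ℕ) : Prop := ∀ u, s < u → mm s ≤ mm u

theorem exists_TT (c : ℕ) : ∃ s, TT s ∧ c < mm s := by
  obtain ⟨N, hN⟩ := (mm_fin c).bddAbove
  obtain ⟨s, hs, hmin⟩ := (measure mm).wf.has_min {s | N < s} ⟨N + 1, by simp⟩
  refine ⟨s, fun u hu => not_lt.1 (hmin u (lt_trans hs hu)), ?_⟩
  by_contra h
  exact absurd (hN (not_lt.1 h)) (not_le.2 hs)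

theorem TT_undec : ¬ ComputablePred TT := by
  classical
  intro h
  apply HH_undec
  have hP : ComputablePred (fun p : ℕ × ℕ => TT p.2 ∧ p.1 < mm p.2) := by
    apply Computable.computablePred
    have h1 : Computable (fun p : ℕ × ℕ => decide (TT p.2)) := h.decide.comp Computable.snd
    have h2 : Computable (fun p : ℕ × ℕ => decide (p.1 < mm p.2)) :=
      (Primrec.nat_lt.comp Primrec.fst (mm_prim.comp Primrec.snd)).decide.to_comp
    exact (Primrec.and.to_comp.comp h1 h2).of_eq (fun p => by simp)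
  have hf := Computable.find (P := fun c s => TT s ∧ c < mm s) hP exists_TT
  refine ComputablePred.computable_iff.2 ⟨fun c => HH c (Nat.find (exists_TT c)),
    HH_prim.to_comp.comp Computable.id hf, ?_⟩
  funext c
  apply propext
  refine ⟨?_, fun h => ⟨_, h⟩⟩
  obtain ⟨hT, hc⟩ := Nat.find_spec (exists_TT c)
  set s := Nat.find (exists_TT c)
  rintro ⟨t, ht⟩
  by_contra hs
  have key : ∀ k, HH c (s + k) = false := by
    intro k
    induction k with
    | zero => simpa using hs
    | succ k ih =>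
      by_contra hk
      have h1 := mm_le_of (c := c) (s := s + k) (by have := mm_le s; omega)
        (by simpa [Nat.add_assoc] using hk) ih
      rcases Nat.eq_zero_or_pos k with rfl | hk0
      · simp at h1; omega
      · have := hT (s + k) (by omega); omega
  have := HH_mono (Nat.le_add_left t s) ht
  rw [key] at this; exact Bool.false_ne_true this

theorem notTT_inf : {s | ¬ TT s}.Infinite := by
  intro hf
  apply TT_undec
  have : ∀ S : Set ℕ, S.Finite → PrimrecPred (· ∈ S) := by
    intro S hS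
    induction S, hS using Set.Finite.induction_on with
    | empty => exact (Primrec.nat_lt.comp Primrec.id (Primrec.const 0)).of_eq (by simp)
    | @insert a S _ _ ih =>
      exact ((Primrec.eq.comp Primrec.id (Primrec.const a)).or ih).of_eq (by simp)
  exact (this _ hf).not.computablePred.of_eq (by simp)

def DD (s t : ℕ) : Prop := ∃ u < t + 1, s < u ∧ mm u < mm s

def lle (s t : ℕ) : Prop := s = t ∨ (s < t ∧ DD s t) ∨ (t < s ∧ ¬ DD t s)

theorem DD_prim : PrimrecRel DD := by
  have h : PrimrecRel (fun (u s : ℕ) => s < u ∧ mm u < mm s) :=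
    PrimrecPred.primrecRel (p := fun p : ℕ × ℕ => p.2 < p.1 ∧ mm p.1 < mm p.2)
      ((Primrec.nat_lt.comp Primrec.snd Primrec.fst).and
      (Primrec.nat_lt.comp (mm_prim.comp Primrec.fst) (mm_prim.comp Primrec.snd)))
  exact PrimrecPred.primrecRel (p := fun p : ℕ × ℕ => DD p.1 p.2)
    (h.exists_lt.comp (Primrec.succ.comp Primrec.snd) Primrec.fst)

theorem lle_prim : PrimrecRel lle :=
  PrimrecPred.primrecRel (p := fun p : ℕ × ℕ => lle p.1 p.2)
    ((Primrec.eq.comp Primrec.fst Primrec.snd).or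
      (((Primrec.nat_lt.comp Primrec.fst Primrec.snd).and (DD_prim.comp Primrec.fst Primrec.snd)).or
      ((Primrec.nat_lt.comp Primrec.snd Primrec.fst).and
        (DD_prim.comp Primrec.snd Primrec.fst).not)))

theorem DD_mono {s t u : ℕ} (h : t ≤ u) (hd : DD s t) : DD s u := by
  obtain ⟨v, h1, h2⟩ := hd
  exact ⟨v, by omega, h2⟩

theorem DD_split {s t u : ℕ} (h : s < t) (hd : DD s u) : DD s t ∨ DD t u := by
  obtain ⟨v, h1, h2, h3⟩ := hd
  by_cases hv : v < t + 1
  · exact Or.inl ⟨v, hv, h2, h3⟩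
  · by_cases ht : mm t < mm s
    · exact Or.inl ⟨t, by omega, h, ht⟩
    · exact Or.inr ⟨v, h1, by omega, by omega⟩

def LO : Type := ℕ

open Classical in
noncomputable instance : LinearOrder LO where
  le := lle
  le_refl := fun _ => Or.inl rfl
  le_trans := by
    intro (a : ℕ) (b : ℕ) (c : ℕ) h1 h2
    have A := @DD_mono
    have B := @DD_split
    unfold lle at *
    rcases h1 with rfl | ⟨h1, h1'⟩ | ⟨h1, h1'⟩
    · exact h2
    · rcases h2 with rfl | ⟨h2, h2'⟩ | ⟨h2, h2'⟩
      · exact Or.inr (Or.inl ⟨h1, h1'⟩)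
      · exact Or.inr (Or.inl ⟨h1.trans h2, A h2.le h1'⟩)
      · rcases lt_trichotomy a c with h | h | h
        · exact Or.inr (Or.inl ⟨h, (B h h1').resolve_right h2'⟩)
        · exact Or.inl h
        · exact Or.inr (Or.inr ⟨h, fun hd => h2' (A h1.le hd)⟩)
    · rcases h2 with rfl | ⟨h2, h2'⟩ | ⟨h2, h2'⟩
      · exact Or.inr (Or.inr ⟨h1, h1'⟩)
      · rcases lt_trichotomy a c with h | h | h
        · exact Or.inr (Or.inl ⟨h, (B h1 h2').resolve_left h1'⟩)
        · exact Or.inl h
        · exact absurd (A h.le h2') h1'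
      · exact Or.inr (Or.inr ⟨h2.trans h1, fun hd => (B h2 hd).elim h2' h1'⟩)
  le_antisymm := by
    intro (a : ℕ) (b : ℕ) h1 h2
    unfold lle at *
    rcases h1 with h1 | ⟨h1, h1'⟩ | ⟨h1, h1'⟩
    · exact h1
    · rcases h2 with h2 | ⟨h2, h2'⟩ | ⟨h2, h2'⟩
      · exact h2.symm
      · omega
      · exact absurd h1' h2'
    · rcases h2 with h2 | ⟨h2, h2'⟩ | ⟨h2, h2'⟩
      · exact h2.symm
      · exact absurd h2' h1'
      · omega
  le_total := by
    intro (a : ℕ) (b : ℕ)
    unfold lle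
    rcases lt_trichotomy a b with h | h | h
    · by_cases hd : DD a b
      · exact Or.inl (Or.inr (Or.inl ⟨h, hd⟩))
      · exact Or.inr (Or.inr (Or.inr ⟨h, hd⟩))
    · exact Or.inl (Or.inl h)
    · by_cases hd : DD b a
      · exact Or.inr (Or.inr (Or.inl ⟨h, hd⟩))
      · exact Or.inl (Or.inr (Or.inr ⟨h, hd⟩))
  toDecidableLE := fun _ _ => inferInstance

theorem Ici_fin {s : ℕ} (h : TT s) : {t | lle s t}.Finite := by
  refine (finite_Iic s).subset ?_
  rintro t (rfl | ⟨h1, u, h2, h3, h4⟩ | ⟨h1, -⟩)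
  · simp
  · exact absurd (h u h3) (not_le.2 h4)
  · exact h1.le

theorem Iic_fin {s : ℕ} (h : ¬ TT s) : {t | lle t s}.Finite := by
  unfold TT at h
  push Not at h
  obtain ⟨u, h1, h2⟩ := h
  refine (finite_Iic u).subset ?_
  rintro t (rfl | ⟨h3, -⟩ | ⟨h3, h4⟩)
  · exact h1.le
  · exact (h3.trans h1).le
  · by_contra hc
    exact h4 ⟨u, by simp at hc; omega, h1, h2⟩

theorem hfinLO : ∀ s : LO, (Iic s).Finite ∨ (Ici s).Finite := by
  intro s
  by_cases h : TT s
  · exact Or.inr (Ici_fin h)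
  · exact Or.inl (Iic_fin h)

theorem hinfLO : {s : LO | (Iic s).Finite}.Infinite :=
  notTT_inf.mono (fun _ h => Iic_fin h)

theorem Ici_fin_iff (s : ℕ) : {t | lle s t}.Finite ↔ TT s := by
  refine ⟨fun h => ?_, Ici_fin⟩
  by_contra hc
  refine infinite_univ ((h.union (Iic_fin hc)).subset ?_)
  intro t _
  exact @le_total LO _ s t

noncomputable def ee : ℕ ≃ FC ℕ :=
  Equiv.ofBijective (fun n => ⟨EE lle n.bitIndices.toFinset, EE_mem hfinLO _⟩) (by
    constructor
    · intro a b h
      have := EE_inj (L := LO) (congrArg Subtype.val h)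
      rw [← Finset.sum_toFinset_bitIndices_two_pow a, ← Finset.sum_toFinset_bitIndices_two_pow b]
      exact congrArg (fun S : Finset ℕ => ∑ i ∈ S, 2 ^ i) this
    · rintro ⟨Y, hY⟩
      obtain ⟨S, hS⟩ : ∃ S : Finset ℕ, EE lle S = Y := EE_surj hfinLO hinfLO Y hY
      refine ⟨∑ i ∈ S, 2 ^ i, Subtype.ext ?_⟩
      show EE lle _ = Y
      rw [Finset.toFinset_bitIndices_sum_two_pow]; exact hS)

theorem ee_val (n : ℕ) : (ee n : Set ℕ) = EE lle n.bitIndices.toFinset := rfl

theorem bits_sub {n N : ℕ} (h : n ≤ N) : n.bitIndices.toFinset ⊆ Finset.range N := by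
  intro i hi
  have := Nat.two_pow_le_of_mem_bitIndices (List.mem_toFinset.1 hi)
  have := @Nat.lt_two_pow_self i
  simp; omega

theorem mem_prim : PrimrecRel (fun (n x : ℕ) => x ∈ (ee n : Set ℕ)) := by
  classical
  have hpow : Primrec (fun s : ℕ => 2 ^ s) :=
    (Primrec₂.unpaired'.1 Nat.Primrec.pow).comp (Primrec.const 2) Primrec.id
  have hQ : PrimrecRel (fun (s : ℕ) (p : ℕ × ℕ) => p.1 / 2 ^ s % 2 = 1 ∧ lle s p.2) :=
    PrimrecPred.primrecRel (p := fun q : ℕ × ℕ × ℕ => q.2.1 / 2 ^ q.1 % 2 = 1 ∧ lle q.1 q.2.2)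
      ((Primrec.eq.comp (Primrec.nat_mod.comp (Primrec.nat_div.comp (Primrec.fst.comp Primrec.snd)
        (hpow.comp Primrec.fst)) (Primrec.const 2)) (Primrec.const 1)).and
        (lle_prim.comp Primrec.fst (Primrec.snd.comp Primrec.snd)))
  have h2 := Primrec.eq.comp (Primrec.nat_mod.comp (Primrec.list_length.comp
    (hQ.listFilter.comp (Primrec.list_range.comp Primrec.fst) Primrec.id)) (Primrec.const 2))
    (Primrec.const 1)
  refine PrimrecPred.primrecRel (p := fun p : ℕ × ℕ => p.2 ∈ (ee p.1 : Set ℕ)) (h2.of_eq ?_)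
  rintro ⟨n, x⟩
  simp only [ee_val, EE, mem_ofPred_eq, Nat.odd_iff, id]
  congr! 2
  rw [← List.toFinset_card_of_nodup (List.nodup_range.filter _)]
  congr 1
  ext s
  simp only [List.mem_toFinset, List.mem_filter, List.mem_range, decide_eq_true_eq,
    Finset.mem_filter, Nat.mem_bitIndices, Nat.testBit_eq_decide_div_mod_eq]
  constructor
  · exact fun h => h.2
  · intro h
    refine ⟨?_, h⟩
    have := bits_sub (le_refl n) (show s ∈ n.bitIndices.toFinset by
      simpa [Nat.testBit_eq_decide_div_mod_eq] using h.1)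
    simpa using this

theorem op_comp (op : Prop → Prop → Prop) (F : FC ℕ → FC ℕ → FC ℕ)
    (hF : ∀ a b x, x ∈ (F a b : Set ℕ) ↔ op (x ∈ (a : Set ℕ)) (x ∈ (b : Set ℕ)))
    (hop : ∀ p q : ℕ × (ℕ × ℕ) × ℕ → Prop, PrimrecPred p → PrimrecPred q →
      PrimrecPred (fun a => op (p a) (q a))) :
    Computable₂ (fun m n : ℕ => ee.symm (F (ee m) (ee n))) := by
  classical
  obtain ⟨b, hb⟩ : ∃ b : ℕ, ∀ x, lle b x := exists_bot hinfLO
  let R : ℕ → (ℕ × ℕ) × ℕ → Prop := fun x q =>
    (x ∈ (ee q.2 : Set ℕ) ↔ op (x ∈ (ee q.1.1 : Set ℕ)) (x ∈ (ee q.1.2 : Set ℕ)))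
  have hR : PrimrecRel R := by
    have h1 := mem_prim.comp (Primrec.snd.comp (Primrec.snd (α := ℕ) (β := (ℕ × ℕ) × ℕ)))
      Primrec.fst
    have h2 := hop _ _ (mem_prim.comp (Primrec.fst.comp (Primrec.fst.comp Primrec.snd)) Primrec.fst)
      (mem_prim.comp (Primrec.snd.comp (Primrec.fst.comp Primrec.snd)) Primrec.fst)
    refine PrimrecPred.primrecRel (p := fun q : ℕ × (ℕ × ℕ) × ℕ => R q.1 q.2)
      (((h1.and h2).or (h1.not.and h2.not)).of_eq ?_)
    intro q
    simp only [R]; tauto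
  have hP : PrimrecPred (fun q : (ℕ × ℕ) × ℕ =>
      ∀ x ∈ List.range (q.2 + q.1.1 + q.1.2 + ((b : ℕ) + 1)), R x q) :=
    hR.forall_mem_list.comp (Primrec.list_range.comp (Primrec.nat_add.comp (Primrec.nat_add.comp
      (Primrec.nat_add.comp Primrec.snd (Primrec.fst.comp Primrec.fst))
      (Primrec.snd.comp Primrec.fst)) (Primrec.const _))) Primrec.id
  have hP' : ComputablePred (fun q : (ℕ × ℕ) × ℕ => ee q.2 = F (ee q.1.1) (ee q.1.2)) := by
    refine hP.computablePred.of_eq ?_
    rintro ⟨⟨m, n⟩, k⟩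
    simp only [R, List.mem_range]
    constructor
    · intro h
      ext x
      obtain ⟨y, hy, hy'⟩ := EE_test (L := LO) (Finset.range (k + m + n + ((b : ℕ) + 1))) b hb
        (Finset.mem_range.2 (by omega)) x
      have e1 : x ∈ (ee k : Set ℕ) ↔ y ∈ (ee k : Set ℕ) := hy' _ (bits_sub (by omega))
      have e2 : x ∈ (ee m : Set ℕ) ↔ y ∈ (ee m : Set ℕ) := hy' _ (bits_sub (by omega))
      have e3 : x ∈ (ee n : Set ℕ) ↔ y ∈ (ee n : Set ℕ) := hy' _ (bits_sub (by omega))
      rw [hF, e1, e2, e3]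
      exact h y (Finset.mem_range.1 hy)
    · intro h x _
      rw [h, hF]
  have hf := Computable.find (P := fun (p : ℕ × ℕ) k => ee k = F (ee p.1) (ee p.2)) hP'
    (fun p => ee.surjective _)
  refine hf.of_eq (fun p => ?_)
  rw [Equiv.eq_symm_apply]
  exact Nat.find_spec (p := fun k => ee k = F (ee p.1) (ee p.2)) _

theorem final (l' : ℕ ≃ ℕ) (ψ : FC ℕ → Set ℕ) (hi : Function.Injective ψ)
    (hs : ∀ a b, ψ (a ⊔ b) = ψ a ∪ ψ b) (hr : range ψ = (FC ℕ : Set (Set ℕ)))
    (c : ℕ → List ℕ × Bool) (hc : Computable c)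
    (h : ∀ n : ℕ, ψ (ee n) = {x : ℕ | Xor' ((c n).2 = true)
                (Odd ((c n).1.filter (fun s => decide (l' s ≤ x))).length)}) : False := by
  apply TT_undec
  have hpow : Primrec (fun s : ℕ => 2 ^ s) :=
    (Primrec₂.unpaired'.1 Nat.Primrec.pow).comp (Primrec.const 2) Primrec.id
  have hc' := hc.comp hpow.to_comp
  refine ComputablePred.computable_iff.2 ⟨fun s => (c (2 ^ s)).2 == (c (2 ^ s)).1.length.bodd,
    Primrec.beq.to_comp.comp (Computable.snd.comp hc') (Computable.nat_bodd.comp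
      (Computable.list_length.comp (Computable.fst.comp hc'))), ?_⟩
  funext s
  apply propext
  have e1 : (ee (2 ^ s) : Set ℕ) = {t | lle s t} := by
    rw [ee_val, Nat.bitIndices_two_pow, ← EE_single]; simp
  rw [← Ici_fin_iff, ← e1, finite_hom (α := FC ℕ) Subtype.val Subtype.val_injective (fun _ _ => rfl)
    Subtype.range_coe, ← finite_hom ψ hi hs hr, h]
  beta_reduce
  generalize c (2 ^ s) = p
  obtain ⟨l, b⟩ := p
  obtain ⟨N, hN⟩ := ((List.finite_toSet l).image l').bddAbove
  have hl : ∀ x, N ≤ x → l.filter (fun s => decide (l' s ≤ x)) = l := by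
    intro x hx
    rw [List.filter_eq_self]
    intro a ha
    simpa using (hN ⟨a, ha, rfl⟩).trans hx
  have hb : Xor' (b = true) (Odd l.length) ↔ ¬ ((b == l.length.bodd) = true) := by
    rw [Nat.odd_iff, Nat.mod_two_of_bodd]
    cases b <;> cases l.length.bodd <;> simp [Xor']
  constructor
  · intro hf
    by_contra hx
    refine Ici_infinite N (hf.subset ?_)
    intro x hx'
    simp only [mem_ofPred_eq]
    rw [hl x hx']; exact hb.2 hx
  · intro hx
    refine (finite_Iio N).subset ?_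
    intro x hx'
    by_contra hc
    simp only [mem_ofPred_eq] at hx'
    rw [hl x (by simpa using hc)] at hx'
    exact hb.1 hx' hx

end Pool.Agent.H.MP_a2ec29_lc
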