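import Mathlib

set_option autoImplicit false

open Set

namespace Pool.Agent.H.MP_a2ec29_lc

section Order
variable {L : Type}

open Classical in
/-- finite unions of half-open intervals, by endpoints -/
def EE (r : L → L → Prop) (S : Finset L) : Set L := {x | Odd (S.filter (fun s => r s x)).card}

def FC (X : Type) : BooleanSubalgebra (Set X) where
  carrier := {Y | Y.Finite ∨ Yᶜ.Finite}
  supClosed' := by
    rintro a (ha | ha) b (hb | hb)
    · exact Or.inl (ha.union hb)
    · exact Or.inr (hb.subset (compl_subset_compl.2 subset_union_right))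
    · exact Or.inr (ha.subset (compl_subset_compl.2 subset_union_left))
    · exact Or.inr (ha.subset (compl_subset_compl.2 subset_union_left))
  infClosed' := by
    rintro a (ha | ha) b (hb | hb)
    · exact Or.inl (ha.subset inter_subset_left)
    · exact Or.inl (ha.subset inter_subset_left)
    · exact Or.inl (hb.subset inter_subset_right)
    · refine Or.inr ?_
      show (a ∩ b)ᶜ.Finite
      rw [compl_inter]; exact ha.union hb
  compl_mem' := by
    rintro a (ha | ha)
    · exact Or.inr (by simpa using ha)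
    · exact Or.inl ha
  bot_mem' := Or.inl finite_empty

theorem mem_FC {X : Type} (Y : Set X) : Y ∈ FC X ↔ Y.Finite ∨ Yᶜ.Finite := Iff.rfl

theorem EE_insert [DecidableEq L] (r : L → L → Prop) (S : Finset L) (s : L) (hs : s ∉ S) (x : L) :
    x ∈ EE r (insert s S) ↔ ¬ (r s x ↔ x ∈ EE r S) := by
  classical
  simp only [EE, mem_ofPred_eq, Finset.filter_insert]
  by_cases h : r s x
  · rw [if_pos h, Finset.card_insert_of_notMem (by simp [hs]), Nat.odd_add_one]
    simp [h]
  · rw [if_neg h]; simp [h]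

theorem EE_empty (r : L → L → Prop) : EE r ∅ = ∅ := by
  ext x; simp [EE]

theorem EE_flip (r : L → L → Prop) (S : Finset L) (s : L) :
    ∃ S' : Finset L, ∀ x, x ∈ EE r S' ↔ ¬ (r s x ↔ x ∈ EE r S) := by
  classical
  by_cases hs : s ∈ S
  · refine ⟨S.erase s, fun x => ?_⟩
    have := EE_insert r (S.erase s) s (by simp) x
    rw [Finset.insert_erase hs] at this
    tauto
  · exact ⟨insert s S, EE_insert r S s hs⟩

theorem EE_xor (r : L → L → Prop) (S T : Finset L) :
    ∃ U : Finset L, ∀ x, x ∈ EE r U ↔ ¬ (x ∈ EE r S ↔ x ∈ EE r T) := by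
  classical
  induction S using Finset.induction_on with
  | empty => exact ⟨T, fun x => by simp [EE_empty]⟩
  | insert s S hs ih =>
    obtain ⟨U, hU⟩ := ih
    obtain ⟨U', hU'⟩ := EE_flip r U s
    refine ⟨U', fun x => ?_⟩
    rw [hU', hU, EE_insert r S s hs]; tauto

theorem EE_single (r : L → L → Prop) (s : L) : EE r {s} = {x | r s x} := by
  classical
  ext x
  have := EE_insert r ∅ s (by simp) x
  simp only [EE_empty, mem_empty_iff_false, iff_false, not_not] at this
  simpa using this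

variable [LinearOrder L]

theorem EE_inj : Function.Injective (EE (L := L) (· ≤ ·)) := by
  classical
  intro S T h
  by_contra hne
  have hn : (symmDiff S T).Nonempty := by
    rw [Finset.nonempty_iff_ne_empty]; intro h0
    exact hne (symmDiff_eq_bot.1 h0)
  set s := (symmDiff S T).min' hn with hs
  have hmem : s ∈ symmDiff S T := Finset.min'_mem _ _
  have hlt : ∀ t, t < s → (t ∈ S ↔ t ∈ T) := by
    intro t ht
    by_contra hc
    have : t ∈ symmDiff S T := by rw [Finset.mem_symmDiff]; tauto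
    exact absurd (Finset.min'_le _ _ this) (not_le.2 ht)
  have key : ∀ A B : Finset L, s ∈ A → s ∉ B → (∀ t, t < s → (t ∈ A ↔ t ∈ B)) →
      ¬ (s ∈ EE (· ≤ ·) A ↔ s ∈ EE (· ≤ ·) B) := by
    intro A B hA hB hAB
    have h1 := EE_insert (· ≤ ·) B s hB s
    have h2 : s ∈ EE (· ≤ ·) (insert s B) ↔ s ∈ EE (· ≤ ·) A := by
      simp only [EE, mem_ofPred_eq]
      congr! 2
      ext t
      simp only [Finset.mem_filter, Finset.mem_insert]
      constructor
      · rintro ⟨rfl | h, h'⟩
        · exact ⟨hA, le_rfl⟩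
        · rcases h'.lt_or_eq with h'' | rfl
          · exact ⟨(hAB t h'').2 h, h'⟩
          · exact absurd h hB
      · rintro ⟨h, h'⟩
        rcases h'.lt_or_eq with h'' | rfl
        · exact ⟨Or.inr ((hAB t h'').1 h), h'⟩
        · exact ⟨Or.inl rfl, le_rfl⟩
    simp only [le_refl, true_iff] at h1
    tauto
  rw [Finset.mem_symmDiff] at hmem
  rcases hmem with ⟨h1, h2⟩ | ⟨h1, h2⟩
  · exact key S T h1 h2 hlt (by rw [h])
  · exact key T S h1 h2 (fun t ht => (hlt t ht).symm) (by rw [h])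

theorem EE_mem (hfin : ∀ s : L, (Iic s).Finite ∨ (Ici s).Finite) (S : Finset L) :
    EE (· ≤ ·) S ∈ FC L := by
  classical
  induction S using Finset.induction_on with
  | empty => rw [EE_empty]; exact (FC L).bot_mem
  | insert s S hs ih =>
    have h1 : Ici s ∈ FC L := by
      rcases hfin s with h | h
      · exact Or.inr (h.subset (by intro x hx; simp at hx ⊢; exact hx.le))
      · exact Or.inl h
    have : EE (· ≤ ·) (insert s S) = (Ici s \ EE (· ≤ ·) S) ⊔ (EE (· ≤ ·) S \ Ici s) := by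
      ext x; rw [EE_insert _ _ _ hs]
      simp only [sup_eq_union, mem_union, mem_diff, mem_Ici]; tauto
    rw [this]
    exact (FC L).sup_mem ((FC L).sdiff_mem h1 ih) ((FC L).sdiff_mem ih h1)

theorem exists_bot (hinf : {s : L | (Iic s).Finite}.Infinite) : ∃ b : L, ∀ x, b ≤ x := by
  obtain ⟨s, hs⟩ := hinf.nonempty
  obtain ⟨b, hb, hb'⟩ := Set.Finite.exists_minimal hs ⟨s, le_rfl⟩
  refine ⟨b, fun x => ?_⟩
  by_contra h
  have h' : x < b := not_le.1 h
  exact h (hb' (h'.le.trans hb) h'.le)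

theorem EE_surj (hfin : ∀ s : L, (Iic s).Finite ∨ (Ici s).Finite)
    (hinf : {s : L | (Iic s).Finite}.Infinite) (Y : Set L) (hY : Y ∈ FC L) :
    ∃ S, EE (· ≤ ·) S = Y := by
  classical
  have hIoi : ∀ s : L, ∃ S, EE (· ≤ ·) S = Ioi s := by
    intro s
    by_cases h0 : (Ioi s).Nonempty
    · have : ∃ t, s < t ∧ (Ioc s t).Finite := by
        rcases hfin s with h | h
        · obtain ⟨t, ht, ht'⟩ := hinf.exists_notMem_finite h
          exact ⟨t, not_le.1 ht', ht.subset Ioc_subset_Iic_self⟩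
        · obtain ⟨t, ht⟩ := h0
          exact ⟨t, ht, h.subset (fun x hx => hx.1.le)⟩
      obtain ⟨t, ht, hf⟩ := this
      obtain ⟨b, hb, hb'⟩ := Set.Finite.exists_minimal hf ⟨t, ht, le_rfl⟩
      refine ⟨{b}, ?_⟩
      rw [EE_single]
      ext x
      simp only [mem_ofPred_eq, mem_Ioi]
      constructor
      · exact fun h => hb.1.trans_le h
      · intro h
        by_contra hc
        have h' : x < b := not_le.1 hc
        exact hc (hb' ⟨h, h'.le.trans hb.2⟩ h'.le)
    · exact ⟨∅, by rw [EE_empty, not_nonempty_iff_eq_empty.1 h0]⟩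
  have hf : ∀ Z : Set L, Z.Finite → ∃ S, EE (· ≤ ·) S = Z := by
    intro Z hZ
    induction Z, hZ using Set.Finite.induction_on with
    | empty => exact ⟨∅, EE_empty _⟩
    | @insert s Z hs _ ih =>
      obtain ⟨S, hS⟩ := ih
      obtain ⟨T, hT⟩ := hIoi s
      obtain ⟨U, hU⟩ := EE_xor (· ≤ ·) S T
      obtain ⟨V, hV⟩ := EE_flip (· ≤ ·) U s
      refine ⟨V, ?_⟩
      ext x
      rw [hV, hU, hS, hT]
      simp only [mem_Ioi, mem_insert_iff]
      rcases lt_trichotomy s x with h | rfl | h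
      · simp [h, h.le, h.ne']
      · simp [hs]
      · simp [h.not_ge, h.not_gt, h.ne]
  rcases hY with h | h
  · exact hf Y h
  · obtain ⟨S, hS⟩ := hf _ h
    obtain ⟨b, hb⟩ := exists_bot hinf
    obtain ⟨V, hV⟩ := EE_flip (· ≤ ·) S b
    refine ⟨V, ?_⟩
    ext x
    rw [hV, hS]; simp [hb x]

theorem EE_test (N : Finset L) (b : L) (hb : ∀ x, b ≤ x) (hbN : b ∈ N) (x : L) :
    ∃ y ∈ N, ∀ S : Finset L, S ⊆ N → (x ∈ EE (· ≤ ·) S ↔ y ∈ EE (· ≤ ·) S) := by
  classical
  have hn : (N.filter (· ≤ x)).Nonempty := ⟨b, by simp [hbN, hb]⟩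
  have hm := Finset.max'_mem _ hn
  rw [Finset.mem_filter] at hm
  refine ⟨_, hm.1, fun S hS => ?_⟩
  simp only [EE, mem_ofPred_eq]
  congr! 2
  ext t
  simp only [Finset.mem_filter]
  constructor
  · rintro ⟨h, h'⟩
    exact ⟨h, Finset.le_max' _ _ (by simp [hS h, h'])⟩
  · rintro ⟨h, h'⟩
    exact ⟨h, h'.trans hm.2⟩

end Order

theorem finite_iff {X : Type} (Y : Set X) : Y.Finite ↔ {Z | Z ∈ FC X ∧ Z ⊆ Y}.Finite := by
  constructor
  · intro h
    exact h.finite_subsets.subset (fun Z hZ => hZ.2)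
  · intro h
    refine Set.Finite.of_finite_image (f := fun y => ({y} : Set X)) (h.subset ?_)
      singleton_injective.injOn
    rintro _ ⟨y, hy, rfl⟩
    exact ⟨Or.inl (finite_singleton y), by simpa using hy⟩

theorem finite_hom {X α : Type} [BooleanAlgebra α] (ψ : α → Set X) (hi : Function.Injective ψ)
    (hs : ∀ a b, ψ (a ⊔ b) = ψ a ∪ ψ b) (hr : range ψ = (FC X : Set (Set X))) (a : α) :
    (ψ a).Finite ↔ (Iic a).Finite := by
  have hle : ∀ a b, a ≤ b ↔ ψ a ⊆ ψ b := by
    intro a b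
    rw [← sup_eq_right, ← hi.eq_iff, hs, union_eq_right]
  rw [finite_iff, ← finite_image_iff (f := ψ) hi.injOn]
  congr! 1
  ext Z
  constructor
  · rintro ⟨h1, h2⟩
    have : Z ∈ range ψ := by rw [hr]; exact h1
    obtain ⟨b, rfl⟩ := this
    exact ⟨b, (hle _ _).2 h2, rfl⟩
  · rintro ⟨b, hb, rfl⟩
    refine ⟨?_, (hle _ _).1 hb⟩
    have : ψ b ∈ range ψ := ⟨b, rfl⟩
    rw [hr] at this; exact this

theorem range_nat : {X : Set ℕ | ∃ S : Finset ℕ, ∃ b : Bool,
    X = {x : ℕ | Xor' (b = true) (Odd (S.filter (fun s => s ≤ x)).card)}} = (FC ℕ : Set (Set ℕ)) := by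
  have hfin : ∀ s : ℕ, (Iic s).Finite ∨ (Ici s).Finite := fun s => Or.inl (finite_Iic s)
  have hE : ∀ (S : Finset ℕ) (x : ℕ), x ∈ EE (· ≤ ·) S ↔ Odd (S.filter (fun s => s ≤ x)).card := by
    intro S x; simp only [EE, mem_ofPred_eq]
  ext X
  constructor
  · rintro ⟨S, b, rfl⟩
    cases b
    · refine (congrArg (· ∈ FC ℕ) ?_).mp (EE_mem hfin S)
      ext x; simp [hE, Xor']
    · refine (congrArg (· ∈ FC ℕ) ?_).mp ((FC ℕ).compl_mem (EE_mem hfin S))
      ext x; simp [hE, Xor']
  · intro h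
    obtain ⟨S, rfl⟩ := EE_surj hfin (by simpa [finite_Iic] using infinite_univ) X h
    exact ⟨S, false, by ext x; simp [hE, Xor']⟩

end Pool.Agent.H.MP_a2ec29_lc
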